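import Pool.Agent.N483.KM.StmY

/-!
# Project KM, extension Y, part PFR: the Poincaré inequality, the part far from the mode
-/

set_option autoImplicit false

namespace Pool.Agent.N427.PFR

open MeasureTheory Set Filter Topology
open scoped ENNReal

abbrev F (k : ℕ) := EuclideanSpace ℝ (Fin k)

section
variable {k : ℕ} {w : F k → ℝ}

theorem lc_log (hpos : ∀ x, 0 < w x)
    (hlc : ∀ x y, ∀ t : ℝ, 0 < t → t < 1 → w x ^ (1 - t) * w y ^ t ≤ w ((1 - t) • x + t • y))
    (x y : F k) (t : ℝ) (h0 : 0 < t) (h1 : t < 1) :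
    (1 - t) * Real.log (w x) + t * Real.log (w y) ≤ Real.log (w ((1 - t) • x + t • y)) := by
  have h := Real.log_le_log (mul_pos (Real.rpow_pos_of_pos (hpos x) _)
    (Real.rpow_pos_of_pos (hpos y) _)) (hlc x y t h0 h1)
  rwa [Real.log_mul (Real.rpow_pos_of_pos (hpos x) _).ne' (Real.rpow_pos_of_pos (hpos y) _).ne',
    Real.log_rpow (hpos x), Real.log_rpow (hpos y)] at h

theorem decay1 (hpos : ∀ x, 0 < w x)
    (hlc : ∀ x y, ∀ t : ℝ, 0 < t → t < 1 → w x ^ (1 - t) * w y ^ t ≤ w ((1 - t) • x + t • y))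
    {R κ : ℝ} (hR : 0 < R) (hd : ∀ x, R ≤ ‖x‖ → w x ≤ Real.exp (-2 * κ) * w 0)
    (x : F k) (hx : R ≤ ‖x‖) :
    Real.log (w x) ≤ Real.log (w 0) - 2 * (κ / R) * ‖x‖ := by
  have hd' : ∀ x, R ≤ ‖x‖ → Real.log (w x) ≤ Real.log (w 0) - 2 * κ := by
    intro x hx
    have h := Real.log_le_log (hpos x) (hd x hx)
    rw [Real.log_mul (Real.exp_ne_zero _) (hpos 0).ne', Real.log_exp] at h
    linarith
  have hr : 0 < ‖x‖ := lt_of_lt_of_le hR hx
  rcases hx.eq_or_lt with h | h
  · have h1 := hd' x hx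
    rw [← h]
    have : 2 * (κ / R) * R = 2 * κ := by field_simp
    rw [this]
    exact h1
  · set t := R / ‖x‖ with ht
    have ht0 : 0 < t := div_pos hR hr
    have ht1 : t < 1 := by rw [ht, div_lt_one hr]; exact h
    have h1 := lc_log hpos hlc 0 x t ht0 ht1
    rw [smul_zero, zero_add] at h1
    have h2 := hd' (t • x) (by
      rw [norm_smul, Real.norm_of_nonneg ht0.le, ht, div_mul_cancel₀ _ hr.ne'])
    have h3 : t * Real.log (w x) ≤ t * (Real.log (w 0) - 2 * (κ / R) * ‖x‖) := by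
      have h4 : t * (2 * (κ / R) * ‖x‖) = 2 * κ := by
        rw [ht]
        field_simp
      linarith
    exact le_of_mul_le_mul_left h3 ht0

theorem decay2 (hpos : ∀ x, 0 < w x)
    (hlc : ∀ x y, ∀ t : ℝ, 0 < t → t < 1 → w x ^ (1 - t) * w y ^ t ≤ w ((1 - t) • x + t • y))
    {R κ : ℝ} (hR : 0 < R) (hd : ∀ x, R ≤ ‖x‖ → w x ≤ Real.exp (-2 * κ) * w 0)
    (x : F k) (hx : R ≤ ‖x‖) (s : ℝ) (hs0 : 0 < s) (hs1 : s ≤ 1) :
    w x ≤ w (s • x) * Real.exp (-(2 * ((κ / R) * (1 - s) * ‖x‖))) := by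
  rcases hs1.eq_or_lt with h | h
  · rw [h, one_smul]
    simp
  · have h1 := lc_log hpos hlc 0 x s hs0 h
    rw [smul_zero, zero_add] at h1
    have h2 := decay1 hpos hlc hR hd x hx
    have h3 : Real.log (w x) ≤ Real.log (w (s • x)) - 2 * ((κ / R) * (1 - s) * ‖x‖) := by
      have h4 : (1 - s) * (Real.log (w x)) ≤
          (1 - s) * (Real.log (w 0) - 2 * (κ / R) * ‖x‖) :=
        mul_le_mul_of_nonneg_left h2 (by linarith)
      nlinarith
    calc w x = Real.exp (Real.log (w x)) := (Real.exp_log (hpos x)).symm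
      _ ≤ Real.exp (Real.log (w (s • x)) - 2 * ((κ / R) * (1 - s) * ‖x‖)) :=
        Real.exp_le_exp.2 h3
      _ = _ := by
        rw [sub_eq_add_neg, Real.exp_add, Real.exp_log (hpos _)]

end

/-- the integral of the exponential -/
theorem int_exp (a r : ℝ) (ha : 0 < a) :
    ∫ s in (1 / 2 : ℝ)..1, r * Real.exp (-(a * (1 - s) * r)) ≤ 1 / a := by
  have h1 : ∀ s ∈ uIcc (1 / 2 : ℝ) 1, HasDerivAt (fun s => 1 / a * Real.exp (-(a * (1 - s) * r)))
      (r * Real.exp (-(a * (1 - s) * r))) s := by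
    intro s _
    have h2 : HasDerivAt (fun s : ℝ => -(a * (1 - s) * r)) (a * r) s := by
      have := ((((hasDerivAt_id' s).const_sub 1).const_mul a).mul_const r).fun_neg
      exact this.congr_deriv (by ring)
    have h4 := (h2.exp).const_mul (1 / a)
    exact h4.congr_deriv (by field_simp)
  rw [intervalIntegral.integral_eq_sub_of_hasDerivAt h1 (by
    apply Continuous.intervalIntegrable
    fun_prop)]
  have h5 : 0 ≤ 1 / a * Real.exp (-(a * (1 - 1 / 2) * r)) := by positivity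
  have h6 : 1 / a * Real.exp (-(a * (1 - 1) * r)) = 1 / a := by simp
  rw [h6]
  linarith

section
variable {k : ℕ} {f : F k → ℝ}

theorem amgm (g e c : ℝ) (he : 0 < e) (hc : 0 < c) : 2 * g ≤ c * e⁻¹ + c⁻¹ * (g ^ 2 * e) := by
  have h : 0 ≤ (c * e⁻¹ - g) ^ 2 * (c⁻¹ * e) := by positivity
  have h2 : (c * e⁻¹ - g) ^ 2 * (c⁻¹ * e) = c * e⁻¹ + c⁻¹ * (g ^ 2 * e) - 2 * g := by
    field_simp
    ring
  linarith

theorem cs (hf : ContDiff ℝ 1 f) (a : ℝ) (ha : 0 < a) (x : F k) :
    (f x - f ((1 / 2 : ℝ) • x)) ^ 2 ≤ 1 / a * ∫ s in (1 / 2 : ℝ)..1,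
      ‖fderiv ℝ f (s • x)‖ ^ 2 * ‖x‖ * Real.exp (a * (1 - s) * ‖x‖) := by
  set Q := ∫ s in (1 / 2 : ℝ)..1,
      ‖fderiv ℝ f (s • x)‖ ^ 2 * ‖x‖ * Real.exp (a * (1 - s) * ‖x‖) with hQ
  have hc : Continuous (fderiv ℝ f) := hf.continuous_fderiv (by norm_num)
  have hQ0 : 0 ≤ Q := by
    apply intervalIntegral.integral_nonneg (by norm_num)
    intro s _
    positivity
  have hd : ∀ s ∈ uIcc (1 / 2 : ℝ) 1, HasDerivAt (fun s : ℝ => f (s • x))
      (fderiv ℝ f (s • x) x) s := by
    intro s _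
    have h1 : HasFDerivAt f (fderiv ℝ f (s • x)) (s • x) :=
      (hf.differentiable (by norm_num) _).hasFDerivAt
    have h2 : HasDerivAt (fun s : ℝ => s • x) x s := by
      simpa using (hasDerivAt_id s).smul_const x
    exact h1.comp_hasDerivAt s h2
  have hi := intervalIntegral.integral_eq_sub_of_hasDerivAt hd (by
    apply Continuous.intervalIntegrable
    exact (hc.comp (continuous_id.smul continuous_const)).clm_apply continuous_const)
  rw [one_smul] at hi
  set Δ := |f x - f ((1 / 2 : ℝ) • x)| with hΔ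
  have h1 : Δ ≤ ∫ s in (1 / 2 : ℝ)..1, ‖fderiv ℝ f (s • x)‖ * ‖x‖ := by
    rw [hΔ, ← hi]
    refine (intervalIntegral.abs_integral_le_integral_abs (by norm_num)).trans ?_
    refine intervalIntegral.integral_mono_on (by norm_num) ?_ ?_ ?_
    · apply Continuous.intervalIntegrable
      exact ((hc.comp (continuous_id.smul continuous_const)).clm_apply continuous_const).abs
    · apply Continuous.intervalIntegrable
      exact (hc.comp (continuous_id.smul continuous_const)).norm.mul continuous_const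
    · intro s _
      exact (fderiv ℝ f (s • x)).le_opNorm x
  have h2 : ∀ c : ℝ, 0 < c → 2 * Δ ≤ c * (1 / a) + c⁻¹ * Q := by
    intro c hc0
    have h3 : ∫ s in (1 / 2 : ℝ)..1, 2 * (‖fderiv ℝ f (s • x)‖ * ‖x‖) ≤
        ∫ s in (1 / 2 : ℝ)..1, (c * (‖x‖ * Real.exp (-(a * (1 - s) * ‖x‖))) +
          c⁻¹ * (‖fderiv ℝ f (s • x)‖ ^ 2 * ‖x‖ * Real.exp (a * (1 - s) * ‖x‖))) := by
      refine intervalIntegral.integral_mono_on (by norm_num) ?_ ?_ ?_
      · apply Continuous.intervalIntegrable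
        exact continuous_const.mul
          ((hc.comp (continuous_id.smul continuous_const)).norm.mul continuous_const)
      · apply Continuous.intervalIntegrable
        have := (hc.comp (continuous_id.smul continuous_const : Continuous fun s : ℝ => s • x)).norm
        simp only [Function.comp_def] at this
        fun_prop
      · intro s _
        have h4 := amgm ‖fderiv ℝ f (s • x)‖ (Real.exp (a * (1 - s) * ‖x‖)) c
          (Real.exp_pos _) hc0
        have h5 := mul_le_mul_of_nonneg_right h4 (norm_nonneg x)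
        rw [Real.exp_neg]
        linarith
    rw [intervalIntegral.integral_add, intervalIntegral.integral_const_mul,
      intervalIntegral.integral_const_mul c, intervalIntegral.integral_const_mul c⁻¹, ← hQ] at h3
    · have h6 := mul_le_mul_of_nonneg_left (int_exp a ‖x‖ ha) hc0.le
      linarith
    · apply Continuous.intervalIntegrable
      fun_prop
    · apply Continuous.intervalIntegrable
      have := (hc.comp (continuous_id.smul continuous_const : Continuous fun s : ℝ => s • x)).norm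
      simp only [Function.comp_def] at this
      fun_prop
  have hΔ0 : 0 ≤ Δ := abs_nonneg _
  rw [← sq_abs, ← hΔ]
  rcases hΔ0.eq_or_lt with h | h
  · rw [← h]
    have : 0 ≤ 1 / a * Q := by positivity
    simpa using this
  · have h3 := h2 (a * Δ) (by positivity)
    have h4 : a * Δ * (1 / a) = Δ := by field_simp
    rw [h4] at h3
    have h5 : Δ ≤ (a * Δ)⁻¹ * Q := by linarith
    have h6 := mul_le_mul_of_nonneg_left h5 h.le
    have h7 : Δ * ((a * Δ)⁻¹ * Q) = 1 / a * Q := by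
      field_simp
    rw [h7] at h6
    nlinarith

end


section
variable {k : ℕ} {f w : F k → ℝ}

theorem ptw (hf : ContDiff ℝ 1 f) (hw : Continuous w) (hpos : ∀ x, 0 < w x)
    (hlc : ∀ x y, ∀ t : ℝ, 0 < t → t < 1 → w x ^ (1 - t) * w y ^ t ≤ w ((1 - t) • x + t • y))
    {R κ : ℝ} (hR : 0 < R) (hκ : 0 < κ) (hd : ∀ x, R ≤ ‖x‖ → w x ≤ Real.exp (-2 * κ) * w 0)
    (x : F k) (hx : R ≤ ‖x‖) :
    (f x - f ((1 / 2 : ℝ) • x)) ^ 2 * w x ≤ 1 / (κ / R) * ∫ s in (1 / 2 : ℝ)..1,
      ‖fderiv ℝ f (s • x)‖ ^ 2 * w (s • x) * (‖x‖ * Real.exp (-((κ / R) * (1 - s) * ‖x‖))) := by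
  have ha : 0 < κ / R := div_pos hκ hR
  have hc : Continuous (fderiv ℝ f) := hf.continuous_fderiv (by norm_num)
  have hcn : Continuous fun s : ℝ => ‖fderiv ℝ f (s • x)‖ :=
    (hc.comp (continuous_id.smul continuous_const : Continuous fun s : ℝ => s • x)).norm
  have hcw : Continuous fun s : ℝ => w (s • x) :=
    hw.comp (continuous_id.smul continuous_const : Continuous fun s : ℝ => s • x)
  have h1 := mul_le_mul_of_nonneg_right (cs hf (κ / R) ha x) (hpos x).le
  refine h1.trans ?_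
  rw [mul_assoc]
  refine mul_le_mul_of_nonneg_left ?_ (by positivity)
  rw [← intervalIntegral.integral_mul_const]
  refine intervalIntegral.integral_mono_on (by norm_num) ?_ ?_ ?_
  · apply Continuous.intervalIntegrable
    fun_prop
  · apply Continuous.intervalIntegrable
    fun_prop
  · intro s hs
    have h2 := decay2 hpos hlc hR hd x hx s (by linarith [hs.1]) hs.2
    have h3 : Real.exp ((κ / R) * (1 - s) * ‖x‖) * w x ≤
        w (s • x) * Real.exp (-((κ / R) * (1 - s) * ‖x‖)) := by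
      have h4 := mul_le_mul_of_nonneg_left h2 (Real.exp_pos ((κ / R) * (1 - s) * ‖x‖)).le
      refine h4.trans (le_of_eq ?_)
      rw [mul_left_comm, ← Real.exp_add]
      congr 2
      ring
    have h5 := mul_le_mul_of_nonneg_left h3
      (mul_nonneg (sq_nonneg ‖fderiv ℝ f (s • x)‖) (norm_nonneg x))
    calc _ = ‖fderiv ℝ f (s • x)‖ ^ 2 * ‖x‖ * (Real.exp ((κ / R) * (1 - s) * ‖x‖) * w x) := by
          ring
      _ ≤ _ := h5
      _ = _ := by ring

theorem lint_smul (h : F k → ℝ≥0∞) (hh : Measurable h) (s : ℝ) (hs : 0 < s) :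
    ∫⁻ x, h (s • x) = ENNReal.ofReal (s ^ k)⁻¹ * ∫⁻ y, h y := by
  have h1 := Measure.map_addHaar_smul (volume : Measure (F k)) hs.ne'
  have h2 : ∫⁻ y, h y ∂(Measure.map (fun x : F k => s • x) volume) = ∫⁻ x, h (s • x) :=
    lintegral_map hh (measurable_const_smul s)
  rw [← h2]
  have h3 : (fun x : F k => s • x) = (s • ·) := rfl
  rw [h3, h1, lintegral_smul_measure, finrank_euclideanSpace_fin, smul_eq_mul]
  rw [abs_of_pos (by positivity)]

theorem tonelli (g : F k → ℝ) (hg : Continuous g) (hg0 : ∀ x, 0 ≤ g x) (a : ℝ) (ha : 0 < a) :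
    ∫⁻ x, ∫⁻ s in Ioc (1 / 2 : ℝ) 1,
      ENNReal.ofReal (g (s • x) * (‖x‖ * Real.exp (-(a * (1 - s) * ‖x‖)))) ≤
      ENNReal.ofReal (2 ^ k) * ENNReal.ofReal (2 * (1 / a)) * ∫⁻ y, ENNReal.ofReal (g y) := by
  have hsm : Continuous fun p : F k × ℝ => g (p.2 • p.1) :=
    hg.comp (continuous_snd.smul continuous_fst)
  rw [lintegral_lintegral_swap]
  · have h1 : ∀ s ∈ Ioc (1 / 2 : ℝ) 1,
        ∫⁻ x, ENNReal.ofReal (g (s • x) * (‖x‖ * Real.exp (-(a * (1 - s) * ‖x‖)))) ≤
        ∫⁻ y, ENNReal.ofReal (2 ^ k) * (ENNReal.ofReal (g y) *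
          ENNReal.ofReal (2 * (‖y‖ * Real.exp (-(a * (1 - s) * ‖y‖))))) := by
      intro s hs
      have hs0 : 0 < s := by linarith [hs.1]
      have hi : (s ^ k)⁻¹ ≤ 2 ^ k := by
        rw [← inv_pow]
        refine pow_le_pow_left₀ (by positivity) ?_ _
        rw [inv_le_comm₀ hs0 (by norm_num)]
        linarith [hs.1]
      have h2 := lint_smul (k := k) (fun y => ENNReal.ofReal (g y * ((s⁻¹ * ‖y‖) *
        Real.exp (-(a * (1 - s) * (s⁻¹ * ‖y‖)))))) (by
          apply Measurable.ennreal_ofReal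
          apply Continuous.measurable
          fun_prop) s hs0
      have h3 : ∫⁻ x, ENNReal.ofReal (g (s • x) * (‖x‖ * Real.exp (-(a * (1 - s) * ‖x‖)))) =
          ∫⁻ x : F k, (fun y => ENNReal.ofReal (g y * ((s⁻¹ * ‖y‖) *
        Real.exp (-(a * (1 - s) * (s⁻¹ * ‖y‖)))))) (s • x) := by
        refine lintegral_congr fun x => ?_
        simp only [norm_smul, Real.norm_of_nonneg hs0.le]
        rw [inv_mul_cancel_left₀ hs0.ne']
      have hm1 : Measurable fun y : F k =>
          ENNReal.ofReal (2 * (‖y‖ * Real.exp (-(a * (1 - s) * ‖y‖)))) := by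
        apply Measurable.ennreal_ofReal
        apply Continuous.measurable
        fun_prop
      have hm2 : Measurable fun y : F k => ENNReal.ofReal (g y) *
          ENNReal.ofReal (2 * (‖y‖ * Real.exp (-(a * (1 - s) * ‖y‖)))) :=
        hg.measurable.ennreal_ofReal.mul hm1
      rw [h3, h2, lintegral_const_mul _ hm2]
      refine mul_le_mul' (ENNReal.ofReal_le_ofReal hi) (lintegral_mono fun y => ?_)
      rw [← ENNReal.ofReal_mul (hg0 y)]
      refine ENNReal.ofReal_le_ofReal (mul_le_mul_of_nonneg_left ?_ (hg0 y))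
      have hs2 : s⁻¹ ≤ 2 := by
        rw [inv_le_comm₀ hs0 (by norm_num)]
        linarith [hs.1]
      have hs3 : 1 ≤ s⁻¹ := (one_le_inv₀ hs0).2 hs.2
      have h4 : s⁻¹ * ‖y‖ ≤ 2 * ‖y‖ := mul_le_mul_of_nonneg_right hs2 (norm_nonneg y)
      have h5 : Real.exp (-(a * (1 - s) * (s⁻¹ * ‖y‖))) ≤ Real.exp (-(a * (1 - s) * ‖y‖)) := by
        apply Real.exp_le_exp.2
        apply neg_le_neg
        have h6 : 0 ≤ a * (1 - s) := mul_nonneg ha.le (by linarith [hs.2])
        refine mul_le_mul_of_nonneg_left ?_ h6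
        nlinarith [norm_nonneg y]
      calc _ ≤ 2 * ‖y‖ * Real.exp (-(a * (1 - s) * ‖y‖)) :=
            mul_le_mul h4 h5 (Real.exp_pos _).le (by positivity)
        _ = _ := by ring
    refine (setLIntegral_mono' measurableSet_Ioc h1).trans ?_
    rw [lintegral_lintegral_swap]
    · rw [← lintegral_const_mul _ hg.measurable.ennreal_ofReal]
      refine lintegral_mono fun y => ?_
      have h7 : ∫⁻ s in Ioc (1 / 2 : ℝ) 1, ENNReal.ofReal (2 ^ k) * (ENNReal.ofReal (g y) *
          ENNReal.ofReal (2 * (‖y‖ * Real.exp (-(a * (1 - s) * ‖y‖))))) =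
          ENNReal.ofReal (2 ^ k) * (ENNReal.ofReal (g y) * ∫⁻ s in Ioc (1 / 2 : ℝ) 1,
          ENNReal.ofReal (2 * (‖y‖ * Real.exp (-(a * (1 - s) * ‖y‖))))) := by
        have hm : Measurable fun s : ℝ =>
            ENNReal.ofReal (2 * (‖y‖ * Real.exp (-(a * (1 - s) * ‖y‖)))) := by
          apply Measurable.ennreal_ofReal
          apply Continuous.measurable
          fun_prop
        rw [lintegral_const_mul _ (hm.const_mul _), lintegral_const_mul _ hm]
      rw [h7, mul_assoc, mul_comm (ENNReal.ofReal (g y))]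
      refine mul_le_mul' le_rfl (mul_le_mul' ?_ le_rfl)
      have h8 : ∫⁻ s in Ioc (1 / 2 : ℝ) 1,
          ENNReal.ofReal (2 * (‖y‖ * Real.exp (-(a * (1 - s) * ‖y‖)))) =
          ENNReal.ofReal (∫ s in Ioc (1 / 2 : ℝ) 1,
            2 * (‖y‖ * Real.exp (-(a * (1 - s) * ‖y‖)))) := by
        rw [ofReal_integral_eq_lintegral_ofReal]
        · apply (Continuous.integrableOn_Icc (a := 1 / 2) (b := 1) _).mono_set Ioc_subset_Icc_self
          fun_prop
        · exact Eventually.of_forall fun s => by positivity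
      rw [h8]
      apply ENNReal.ofReal_le_ofReal
      rw [← intervalIntegral.integral_of_le (by norm_num), intervalIntegral.integral_const_mul]
      exact mul_le_mul_of_nonneg_left (int_exp a ‖y‖ ha) (by norm_num)
    · apply Measurable.aemeasurable
      apply Measurable.const_mul
      have hm1 : Measurable fun x : ℝ × F k =>
          ENNReal.ofReal (2 * (‖x.2‖ * Real.exp (-(a * (1 - x.1) * ‖x.2‖)))) := by
        apply Measurable.ennreal_ofReal
        apply Continuous.measurable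
        fun_prop
      exact (hg.measurable.comp measurable_snd).ennreal_ofReal.mul hm1
  · apply Measurable.aemeasurable
    apply Measurable.ennreal_ofReal
    apply Continuous.measurable
    fun_prop

/-- the integrated estimate for the difference -/
theorem diff_est (hf : ContDiff ℝ 1 f) (hw : Continuous w) (hpos : ∀ x, 0 < w x)
    (hlc : ∀ x y, ∀ t : ℝ, 0 < t → t < 1 → w x ^ (1 - t) * w y ^ t ≤ w ((1 - t) • x + t • y))
    {R κ : ℝ} (hR : 0 < R) (hκ : 0 < κ) (hd : ∀ x, R ≤ ‖x‖ → w x ≤ Real.exp (-2 * κ) * w 0)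
    (S : Set (F k)) (hS : MeasurableSet S) (hSR : ∀ x ∈ S, R ≤ ‖x‖) :
    ∫⁻ x in S, ENNReal.ofReal ((f x - f ((1 / 2 : ℝ) • x)) ^ 2 * w x) ≤
      ENNReal.ofReal (1 / (κ / R)) * (ENNReal.ofReal (2 ^ k) *
        ENNReal.ofReal (2 * (1 / (κ / R))) *
        ∫⁻ y, ENNReal.ofReal (‖fderiv ℝ f y‖ ^ 2 * w y)) := by
  have ha : 0 < κ / R := div_pos hκ hR
  have hc : Continuous (fderiv ℝ f) := hf.continuous_fderiv (by norm_num)
  have hg : Continuous fun y => ‖fderiv ℝ f y‖ ^ 2 * w y := (hc.norm.pow 2).mul hw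
  have h1 := tonelli (fun y => ‖fderiv ℝ f y‖ ^ 2 * w y) hg
    (fun y => mul_nonneg (sq_nonneg _) (hpos y).le) (κ / R) ha
  refine le_trans ?_ (mul_le_mul' le_rfl h1)
  rw [← lintegral_const_mul']
  swap
  · exact ENNReal.ofReal_ne_top
  refine le_trans ?_ (setLIntegral_le_lintegral S _)
  refine setLIntegral_mono' hS fun x hx => ?_
  have h2 := ptw hf hw hpos hlc hR hκ hd x (hSR x hx)
  refine (ENNReal.ofReal_le_ofReal h2).trans ?_
  rw [ENNReal.ofReal_mul (by positivity), intervalIntegral.integral_of_le (by norm_num),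
    ofReal_integral_eq_lintegral_ofReal]
  · apply (Continuous.integrableOn_Icc (a := 1 / 2) (b := 1) _).mono_set Ioc_subset_Icc_self
    have hcn : Continuous fun s : ℝ => ‖fderiv ℝ f (s • x)‖ :=
      (hc.comp (continuous_id.smul continuous_const : Continuous fun s : ℝ => s • x)).norm
    have hcw : Continuous fun s : ℝ => w (s • x) :=
      hw.comp (continuous_id.smul continuous_const : Continuous fun s : ℝ => s • x)
    fun_prop
  · refine Eventually.of_forall fun s => ?_
    have := (hpos (s • x)).le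
    show 0 ≤ ‖fderiv ℝ f (s • x)‖ ^ 2 * w (s • x) *
      (‖x‖ * Real.exp (-((κ / R) * (1 - s) * ‖x‖)))
    positivity

end


section
variable {k : ℕ} {f w : F k → ℝ}

theorem int_bd (hw : Continuous w) (hpos : ∀ x, 0 < w x) (hwi : Integrable w) (g : F k → ℝ)
    (hg : Continuous g) (B : ℝ) (hB : ∀ x, |g x| ≤ B) : Integrable fun x => g x * w x := by
  refine Integrable.mono' (hwi.const_mul B) (hg.mul hw).aestronglyMeasurable ?_
  refine Eventually.of_forall fun x => ?_
  rw [norm_mul, Real.norm_eq_abs, Real.norm_of_nonneg (hpos x).le]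
  exact mul_le_mul_of_nonneg_right (hB x) (hpos x).le

theorem exp_small (hk : 1 ≤ k) : (2 : ℝ) ^ k * Real.exp (-2 * k) ≤ 1 / 3 := by
  have h1 : Real.exp (-2 * (k : ℝ)) = Real.exp (-2) ^ k := by
    rw [← Real.exp_nat_mul]
    congr 1
    ring
  rw [h1, ← mul_pow]
  have h2 : (6 : ℝ) ≤ Real.exp 2 := by
    have h3 : Real.exp 2 = Real.exp 1 * Real.exp 1 := by rw [← Real.exp_add]; norm_num
    have h4 := Real.exp_one_gt_d9
    rw [h3]
    nlinarith
  have h3 : 2 * Real.exp (-2) ≤ 1 / 3 := by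
    rw [Real.exp_neg]
    have := inv_anti₀ (by norm_num : (0 : ℝ) < 6) h2
    linarith
  calc (2 * Real.exp (-2)) ^ k ≤ (2 * Real.exp (-2)) ^ 1 :=
        pow_le_pow_of_le_one (by positivity) (by linarith) hk
    _ ≤ 1 / 3 := by rw [pow_one]; exact h3

theorem main0 (hk : 1 ≤ k) (hf : ContDiff ℝ 1 f) (hfb : ∃ B : ℝ, ∀ x, |f x| ≤ B)
    (hfg : ∃ B : ℝ, ∀ x, ‖fderiv ℝ f x‖ ≤ B)
    (hw : Continuous w) (hpos : ∀ x, 0 < w x) (hwi : Integrable w)
    (hlc : ∀ x y, ∀ t : ℝ, 0 < t → t < 1 → w x ^ (1 - t) * w y ^ t ≤ w ((1 - t) • x + t • y))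
    {R : ℝ} (hR : 0 < R) (hd : ∀ x, R ≤ ‖x‖ → w x ≤ Real.exp (-2 * k) * w 0) :
    ∫ x in (Metric.closedBall 0 (2 * R))ᶜ, f x ^ 2 * w x ≤
      (12 * 2 ^ k) * (∫ x in Metric.closedBall 0 (2 * R), f x ^ 2 * w x) +
      (12 * 2 ^ k) * R ^ 2 * ∫ x, ‖fderiv ℝ f x‖ ^ 2 * w x := by
  obtain ⟨B, hB⟩ := hfb
  obtain ⟨G, hG⟩ := hfg
  have hB0 : 0 ≤ B := (abs_nonneg _).trans (hB 0)
  have hκ : (0 : ℝ) < k := by exact_mod_cast hk
  have hc : Continuous (fderiv ℝ f) := hf.continuous_fderiv (by norm_num)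
  have hfc : Continuous f := hf.continuous
  have hfh : Continuous fun x : F k => f ((1 / 2 : ℝ) • x) := hfc.comp (continuous_const_smul _)
  set S : Set (F k) := (Metric.closedBall 0 (2 * R))ᶜ with hS
  have hSm : MeasurableSet S := Metric.isClosed_closedBall.measurableSet.compl
  have hSR : ∀ x ∈ S, 2 * R ≤ ‖x‖ := by
    intro x hx
    rw [hS, mem_compl_iff, mem_closedBall_zero_iff, not_le] at hx
    exact hx.le
  have i1 : Integrable fun x => f x ^ 2 * w x :=
    int_bd hw hpos hwi _ (hfc.pow 2) (B ^ 2) fun x => by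
      rw [abs_of_nonneg (sq_nonneg _), ← sq_abs]
      exact pow_le_pow_left₀ (abs_nonneg _) (hB x) 2
  have i2 : Integrable fun x => f ((1 / 2 : ℝ) • x) ^ 2 * w x :=
    int_bd hw hpos hwi _ (hfh.pow 2) (B ^ 2) fun x => by
      rw [abs_of_nonneg (sq_nonneg _), ← sq_abs]
      exact pow_le_pow_left₀ (abs_nonneg _) (hB _) 2
  have i3 : Integrable fun x => (f x - f ((1 / 2 : ℝ) • x)) ^ 2 * w x :=
    int_bd hw hpos hwi _ ((hfc.sub hfh).pow 2) ((2 * B) ^ 2) fun x => by
      rw [abs_of_nonneg (sq_nonneg _), ← sq_abs]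
      refine pow_le_pow_left₀ (abs_nonneg _) ?_ 2
      have h1 := abs_sub (f x) (f ((1 / 2 : ℝ) • x))
      have h2 := hB x
      have h3 := hB ((1 / 2 : ℝ) • x)
      linarith
  have i4 : Integrable fun x => ‖fderiv ℝ f x‖ ^ 2 * w x :=
    int_bd hw hpos hwi _ (hc.norm.pow 2) (G ^ 2) fun x => by
      rw [abs_of_nonneg (sq_nonneg _)]
      exact pow_le_pow_left₀ (norm_nonneg _) (hG x) 2
  have i5 : Integrable fun x : F k => f ((1 / 2 : ℝ) • x) ^ 2 * w ((1 / 2 : ℝ) • x) :=
    (integrable_comp_smul_iff volume (fun x => f x ^ 2 * w x) (by norm_num : (1 / 2 : ℝ) ≠ 0)).2 i1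
  set D := ∫ x, ‖fderiv ℝ f x‖ ^ 2 * w x with hD
  have hD0 : 0 ≤ D := integral_nonneg fun x => mul_nonneg (sq_nonneg _) (hpos x).le
  -- the difference
  have e1 : ∫ x in S, (f x - f ((1 / 2 : ℝ) • x)) ^ 2 * w x ≤
      (1 / (k / R)) * (2 ^ k * (2 * (1 / (k / R))) * D) := by
    have h1 := diff_est hf hw hpos hlc hR hκ hd S hSm (fun x hx => by linarith [hSR x hx])
    rw [← ofReal_integral_eq_lintegral_ofReal i3.integrableOn (Eventually.of_forall fun x =>
      mul_nonneg (sq_nonneg _) (hpos x).le), ← ofReal_integral_eq_lintegral_ofReal i4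
      (Eventually.of_forall fun x => mul_nonneg (sq_nonneg _) (hpos x).le), ← hD,
      ← ENNReal.ofReal_mul (by positivity), ← ENNReal.ofReal_mul (by positivity),
      ← ENNReal.ofReal_mul (by positivity)] at h1
    exact (ENNReal.ofReal_le_ofReal_iff (by positivity)).1 h1
  -- the value at the half
  have e2 : ∫ x in S, f ((1 / 2 : ℝ) • x) ^ 2 * w x ≤
      Real.exp (-2 * k) * (2 ^ k * ∫ x, f x ^ 2 * w x) := by
    have h1 : ∫ x in S, f ((1 / 2 : ℝ) • x) ^ 2 * w x ≤
        ∫ x in S, Real.exp (-2 * k) * (f ((1 / 2 : ℝ) • x) ^ 2 * w ((1 / 2 : ℝ) • x)) := by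
      refine setIntegral_mono_on i2.integrableOn (i5.const_mul _).integrableOn hSm fun x hx => ?_
      have hx2 := hSR x hx
      have h2 := decay2 hpos hlc hR hd x (by linarith) (1 / 2) (by norm_num) (by norm_num)
      have h3 : Real.exp (-(2 * ((k : ℝ) / R * (1 - 1 / 2) * ‖x‖))) ≤ Real.exp (-2 * k) := by
        apply Real.exp_le_exp.2
        have h4 : (k : ℝ) / R * (2 * R) ≤ (k : ℝ) / R * ‖x‖ :=
          mul_le_mul_of_nonneg_left hx2 (by positivity)
        have h5 : (k : ℝ) / R * (2 * R) = 2 * k := by field_simp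
        linarith
      have h6 : w x ≤ w ((1 / 2 : ℝ) • x) * Real.exp (-2 * k) :=
        h2.trans (mul_le_mul_of_nonneg_left h3 (hpos _).le)
      have h7 := mul_le_mul_of_nonneg_left h6 (sq_nonneg (f ((1 / 2 : ℝ) • x)))
      linarith
    refine h1.trans ?_
    rw [integral_const_mul]
    refine mul_le_mul_of_nonneg_left ?_ (Real.exp_pos _).le
    refine (setIntegral_le_integral i5 (Eventually.of_forall fun x =>
      mul_nonneg (sq_nonneg _) (hpos _).le)).trans ?_
    have h8 := Measure.integral_comp_smul (volume : Measure (F k)) (fun x => f x ^ 2 * w x)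
      (1 / 2 : ℝ)
    rw [h8, finrank_euclideanSpace_fin, smul_eq_mul]
    refine le_of_eq ?_
    congr 1
    rw [abs_of_pos (by positivity)]
    rw [one_div, inv_pow, inv_inv]
  -- together
  have e3 : ∫ x in S, f x ^ 2 * w x ≤ ∫ x in S, ((3 / 2) * (f ((1 / 2 : ℝ) • x) ^ 2 * w x) +
      3 * ((f x - f ((1 / 2 : ℝ) • x)) ^ 2 * w x)) := by
    refine setIntegral_mono_on i1.integrableOn
      ((i2.const_mul _).add (i3.const_mul _)).integrableOn hSm fun x _ => ?_
    have h1 : f x ^ 2 ≤ (3 / 2) * f ((1 / 2 : ℝ) • x) ^ 2 +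
        3 * (f x - f ((1 / 2 : ℝ) • x)) ^ 2 := by
      nlinarith [sq_nonneg (f ((1 / 2 : ℝ) • x) - 2 * (f x - f ((1 / 2 : ℝ) • x)))]
    have h2 := mul_le_mul_of_nonneg_right h1 (hpos x).le
    linarith
  rw [integral_add (i2.const_mul _).integrableOn (i3.const_mul _).integrableOn,
    integral_const_mul, integral_const_mul] at e3
  have e4 : (∫ x in Metric.closedBall 0 (2 * R), f x ^ 2 * w x) +
      (∫ x in S, f x ^ 2 * w x) = ∫ x, f x ^ 2 * w x :=
    integral_add_compl Metric.isClosed_closedBall.measurableSet i1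
  set J := ∫ x in Metric.closedBall 0 (2 * R), f x ^ 2 * w x with hJ
  set I := ∫ x in S, f x ^ 2 * w x with hI
  have hJ0 : 0 ≤ J := integral_nonneg fun x => mul_nonneg (sq_nonneg _) (hpos x).le
  have hI0 : 0 ≤ I := integral_nonneg fun x => mul_nonneg (sq_nonneg _) (hpos x).le
  rw [← e4] at e2
  have h1 := mul_le_mul_of_nonneg_right (exp_small hk) (add_nonneg hJ0 hI0)
  have h2 : (1 / (k / R)) * (2 ^ k * (2 * (1 / (k / R))) * D) ≤ 2 * 2 ^ k * (R ^ 2 * D) := by
    have h3 : (1 / ((k : ℝ) / R)) = R / k := by rw [one_div, inv_div]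
    rw [h3]
    have h4 : R / k ≤ R := div_le_self hR.le (by exact_mod_cast hk)
    have h5 : R / k * (R / k) ≤ R * R := mul_le_mul h4 h4 (by positivity) hR.le
    have h6 := mul_le_mul_of_nonneg_right h5 (by positivity : 0 ≤ 2 * 2 ^ k * D)
    nlinarith
  have h3 : (1 : ℝ) ≤ 2 ^ k := one_le_pow₀ (by norm_num)
  have h4 : Real.exp (-2 * k) * (2 ^ k * (J + I)) ≤ 1 / 3 * (J + I) := by linarith
  have h5 : I ≤ J + 12 * (2 ^ k * (R ^ 2 * D)) := by linarith
  have h6 : J ≤ 12 * 2 ^ k * J := by nlinarith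
  linarith

end


end Pool.Agent.N427.PFR

namespace Pool.Agent.N427.PFR

open MeasureTheory Set Filter Topology
open scoped ENNReal
open Pool.Agent.N483.KM

theorem set_trans {k : ℕ} (x0 : F k) (r : ℝ) (g : F k → ℝ) :
    ∫ x in Metric.closedBall x0 r, g x = ∫ x in Metric.closedBall 0 r, g (x0 + x) := by
  have h := (measurePreserving_add_left (volume : Measure (F k)) x0).setIntegral_preimage_emb
    (MeasurableEquiv.addLeft x0).measurableEmbedding g (Metric.closedBall x0 r)
  rw [← h]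
  have h2 : (x0 + ·) ⁻¹' Metric.closedBall x0 r = Metric.closedBall 0 r := by
    ext x
    simp [dist_eq_norm]
  rw [h2]

theorem set_trans_compl {k : ℕ} (x0 : F k) (r : ℝ) (g : F k → ℝ) :
    ∫ x in (Metric.closedBall x0 r)ᶜ, g x = ∫ x in (Metric.closedBall 0 r)ᶜ, g (x0 + x) := by
  have h := (measurePreserving_add_left (volume : Measure (F k)) x0).setIntegral_preimage_emb
    (MeasurableEquiv.addLeft x0).measurableEmbedding g (Metric.closedBall x0 r)ᶜ
  rw [← h]
  have h2 : (x0 + ·) ⁻¹' (Metric.closedBall x0 r)ᶜ = (Metric.closedBall 0 r)ᶜ := by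
    ext x
    simp [dist_eq_norm]
  rw [h2]

/-- **(PFR)** far from the mode -/
theorem t_PFR : S_PFR := by
  intro k hk
  refine ⟨12 * 2 ^ k, by positivity, fun w f x0 R hR hw hf hd => ?_⟩
  have hf' : ∀ x, fderiv ℝ (fun x => f (x0 + x)) x = fderiv ℝ f (x0 + x) :=
    fun x => fderiv_comp_add_left x0
  have h := main0 (k := k) (f := fun x => f (x0 + x)) (w := fun x => w (x0 + x)) hk
    (hf.diff.comp (contDiff_const.add contDiff_id))
    (by obtain ⟨B, hB⟩ := hf.bdd; exact ⟨B, fun x => hB _⟩)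
    (by
      obtain ⟨B, hB⟩ := hf.grad
      refine ⟨B, fun x => ?_⟩
      rw [hf']
      exact hB _)
    (hw.cont.comp (continuous_const.add continuous_id)) (fun x => hw.pos _)
    (hw.adm.one.comp_add_left x0)
    (by
      intro x y t h0 h1
      have h2 := hw.lc (x0 + x) (x0 + y) t h0 h1
      have h3 : (1 - t) • (x0 + x) + t • (x0 + y) = x0 + ((1 - t) • x + t • y) := by
        rw [smul_add, smul_add, sub_smul, sub_smul, one_smul]
        abel
      rwa [h3] at h2)
    hR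
    (by
      intro x hx
      have h2 := hd (x0 + x) (by rwa [add_sub_cancel_left])
      simpa using h2)
  simp only [hf'] at h
  have h5 : ∫ x, ‖fderiv ℝ f (x0 + x)‖ ^ 2 * w (x0 + x) = ∫ x, ‖fderiv ℝ f x‖ ^ 2 * w x :=
    integral_add_left_eq_self (fun x => ‖fderiv ℝ f x‖ ^ 2 * w x) x0
  rw [h5] at h
  rw [set_trans_compl, set_trans]
  exact h

end Pool.Agent.N427.PFR
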